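import Pool.Agent.H81.FX.Targets

/-! Mass of the cloud (module CLM). -/

set_option autoImplicit false

namespace Pool.Agent.H11.FCX

open Pool.Agent.H81.FX Finset

theorem heavy_card {ι : Type} [DecidableEq ι] {m : ℕ} {ε : ℝ} {S : Finset (FreeGroup ι)}
    {b : Fin m → FreeGroup ι → ℂ} (hb : Bs S b) (i : Fin m) (H : Finset (FreeGroup ι))
    (hH : ∀ g ∈ H, g ∈ Hv S b ε i) : H.card * ε ≤ 1 := by
  have h1 : H.card • ε ≤ ∑ g ∈ H, ‖b i g‖ :=
    Finset.card_nsmul_le_sum H _ ε fun g hg => (hH g hg).2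
  have h2 : ∑ g ∈ H, ‖b i g‖ ≤ ∑ g ∈ S, ‖b i g‖ :=
    Finset.sum_le_sum_of_subset_of_nonneg (fun g hg => (hH g hg).1) fun g _ _ => norm_nonneg _
  rw [nsmul_eq_mul] at h1
  linarith [(hb i).2.2]

theorem shift_sum {ι : Type} [DecidableEq ι] {m : ℕ} {S : Finset (FreeGroup ι)}
    {b : Fin m → FreeGroup ι → ℂ} (hb : Bs S b) (i : Fin m) (Ξ : Finset (FreeGroup ι))
    (g : FreeGroup ι) : ∑ ξ ∈ Ξ, ‖b i (ξ * g)‖ ≤ 1 := by
  have h1 : ∑ ξ ∈ Ξ, ‖b i (ξ * g)‖ = ∑ x ∈ Ξ.image (fun ξ => ξ * g), ‖b i x‖ := by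
    rw [Finset.sum_image]
    intro x _ y _ h
    exact mul_right_cancel h
  rw [h1]
  have h2 : ∑ x ∈ Ξ.image (fun ξ => ξ * g), ‖b i x‖ ≤
      ∑ x ∈ Ξ.image (fun ξ => ξ * g) ∪ S, ‖b i x‖ :=
    Finset.sum_le_sum_of_subset_of_nonneg Finset.subset_union_left fun g _ _ => norm_nonneg _
  have h3 : ∑ x ∈ S, ‖b i x‖ = ∑ x ∈ Ξ.image (fun ξ => ξ * g) ∪ S, ‖b i x‖ := by
    refine Finset.sum_subset Finset.subset_union_right fun x _ hx => ?_
    rw [(hb i).1 x hx, norm_zero]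
  rw [← h3] at h2
  exact h2.trans (hb i).2.2

theorem pf_CLM : T_CLM := by
  classical
  intro m ε hε ι _ S b hb
  refine ⟨fun Ξ => ?_, fun i H hH => heavy_card hb i H hH⟩
  unfold Cl
  rw [Finset.sum_comm]
  have h1 : ∀ i ∈ (univ : Finset (Fin m)), (∑ ξ ∈ Ξ, ∑ g ∈ S,
      @ite ℝ (g ∈ Hv S b ε i) (Classical.propDecidable _) ‖b i (ξ * g)‖ 0) ≤ 1 / ε := by
    intro i _
    rw [Finset.sum_comm]
    have h2 : ∀ g ∈ S, (∑ ξ ∈ Ξ,
        @ite ℝ (g ∈ Hv S b ε i) (Classical.propDecidable _) ‖b i (ξ * g)‖ 0) ≤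
        if g ∈ Hv S b ε i then 1 else 0 := by
      intro g _
      by_cases hg : g ∈ Hv S b ε i
      · rw [if_pos hg]
        refine le_trans (le_of_eq ?_) (shift_sum hb i Ξ g)
        exact Finset.sum_congr rfl fun ξ _ => if_pos hg
      · rw [if_neg hg]
        refine le_of_eq (Finset.sum_eq_zero fun ξ _ => if_neg hg)
    refine (Finset.sum_le_sum h2).trans ?_
    rw [← Finset.sum_filter, Finset.sum_const, nsmul_eq_mul, mul_one, le_div_iff₀ hε]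
    exact heavy_card hb i _ fun g hg => (mem_filter.1 hg).2
  refine (Finset.sum_le_sum h1).trans ?_
  rw [Finset.sum_const, card_univ, Fintype.card_fin, nsmul_eq_mul]
  apply le_of_eq
  ring

end Pool.Agent.H11.FCX
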